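import Mathlib

set_option autoImplicit false

namespace Pool.Agent.Results.MP_aff84d_nt.Criterion

/-- the key estimate -/
lemma step_aux {a X Y Z : ℤ} (hYZ : Y ≤ Z) (h : 2 * Z ≤ a * X * Y) :
    Y ^ 2 * (a * X - 2) ≤ X ^ 2 - (X ^ 2 + Y ^ 2 + Z ^ 2 - a * X * Y * Z) := by
  have h1 : (Z - Y) * (Z + Y - a * X * Y) ≤ 0 :=
    mul_nonpos_of_nonneg_of_nonpos (by linarith) (by linarith)
  nlinarith

/-- the reduced representations with the minus sign -/
def Red (a b : ℤ) : Prop := ∃ x y z : ℤ, 1 ≤ x ∧ x ≤ y ∧ y ≤ z ∧ 2 * z ≤ a * x * y ∧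
  x ^ 2 + y ^ 2 + z ^ 2 - a * x * y * z = b

/-- representations with the plus sign -/
def Plus (a b : ℤ) : Prop := ∃ x y z : ℤ, 0 ≤ x ∧ 0 ≤ y ∧ 0 ≤ z ∧
  x ^ 2 + y ^ 2 + z ^ 2 + a * x * y * z = b

lemma main_pos {a b : ℤ} (N : ℕ) :
    ∀ X Y Z : ℤ, 0 ≤ X → 0 ≤ Y → 0 ≤ Z → (X + Y + Z).toNat ≤ N →
      X ^ 2 + Y ^ 2 + Z ^ 2 - a * X * Y * Z = b → Plus a b ∨ Red a b := by
  induction N with
  | zero =>
    intro X Y Z hX hY hZ hN h
    have e1 : X = 0 := by omega
    subst e1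
    exact Or.inl ⟨0, Y, Z, le_rfl, hY, hZ, by rw [← h]; ring⟩
  | succ N ih =>
    intro X Y Z hX hY hZ hN h
    rcases hX.eq_or_lt with e | hX1
    · subst e
      exact Or.inl ⟨0, Y, Z, le_rfl, hY, hZ, by rw [← h]; ring⟩
    rcases hY.eq_or_lt with e | hY1
    · subst e
      exact Or.inl ⟨X, 0, Z, hX, le_rfl, hZ, by rw [← h]; ring⟩
    rcases hZ.eq_or_lt with e | hZ1
    · subst e
      exact Or.inl ⟨X, Y, 0, hX, hY, le_rfl, by rw [← h]; ring⟩
    -- the case in which the last entry is the largest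
    have key : ∀ A B C : ℤ, 0 < A → A ≤ B → B ≤ C → (A + B + C).toNat ≤ N + 1 →
        A ^ 2 + B ^ 2 + C ^ 2 - a * A * B * C = b → Plus a b ∨ Red a b := by
      intro A B C hA hAB hBC hN' h'
      by_cases c : 2 * C ≤ a * A * B
      · exact Or.inr ⟨A, B, C, hA, hAB, hBC, c, h'⟩
      push Not at c
      by_cases c' : 0 ≤ a * A * B - C
      · refine ih A B (a * A * B - C) hA.le (by linarith) c' (by omega) ?_
        rw [← h']
        ring
      · push Not at c'
        refine Or.inl ⟨A, B, C - a * A * B, hA.le, by linarith, by linarith, ?_⟩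
        rw [← h']
        ring
    rcases le_total X Y with c1 | c1 <;> rcases le_total Y Z with c2 | c2 <;>
      rcases le_total X Z with c3 | c3
    · exact key X Y Z hX1 c1 c2 (by omega) h
    · exact key X Y Z hX1 c1 c2 (by omega) h
    · exact key X Z Y hX1 c3 c2 (by omega) (by rw [← h]; ring)
    · exact key Z X Y hZ1 c3 c1 (by omega) (by rw [← h]; ring)
    · exact key Y X Z hY1 c1 c3 (by omega) (by rw [← h]; ring)
    · exact key Y Z X hY1 c2 c3 (by omega) (by rw [← h]; ring)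
    · exact key Z Y X hZ1 c2 c1 (by omega) (by rw [← h]; ring)
    · exact key Z Y X hZ1 c2 c1 (by omega) (by rw [← h]; ring)

lemma either {a b x y z : ℤ} (h : x ^ 2 + y ^ 2 + z ^ 2 - a * x * y * z = b) :
    Plus |a| b ∨ Red |a| b := by
  have hprod : |a * x * y * z| = |a| * |x| * |y| * |z| := by rw [abs_mul, abs_mul, abs_mul]
  rcases le_total 0 (a * x * y * z) with hs | hs
  · have h3 : |x| ^ 2 + |y| ^ 2 + |z| ^ 2 - |a| * |x| * |y| * |z| = b := by
      rw [← hprod, abs_of_nonneg hs, sq_abs, sq_abs, sq_abs]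
      exact h
    exact main_pos _ |x| |y| |z| (abs_nonneg _) (abs_nonneg _) (abs_nonneg _) le_rfl h3
  · have h3 : |x| ^ 2 + |y| ^ 2 + |z| ^ 2 + |a| * |x| * |y| * |z| = b := by
      rw [← hprod, abs_of_nonpos hs, sq_abs, sq_abs, sq_abs]
      linarith
    exact Or.inl ⟨|x|, |y|, |z|, abs_nonneg _, abs_nonneg _, abs_nonneg _, h3⟩

/-- passing between `a` and `|a|` -/
lemma sol_abs {a b x y z : ℤ} (h : x ^ 2 + y ^ 2 + z ^ 2 - |a| * x * y * z = b) :
    ∃ x y z : ℤ, x ^ 2 + y ^ 2 + z ^ 2 - a * x * y * z = b := by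
  rcases abs_choice a with e | e
  · rw [e] at h
    exact ⟨x, y, z, h⟩
  · rw [e] at h
    exact ⟨-x, y, z, by rw [← h]; ring⟩

lemma sol_abs_plus {a b x y z : ℤ} (h : x ^ 2 + y ^ 2 + z ^ 2 + |a| * x * y * z = b) :
    ∃ x y z : ℤ, x ^ 2 + y ^ 2 + z ^ 2 - a * x * y * z = b :=
  sol_abs (x := -x) (y := y) (z := z) (by rw [← h]; ring)

/-- in a reduced solution `a x ≥ 2`, and `a x = 2` forces `b = x ^ 2` -/
lemma red_two {a x y z b : ℤ} (h1 : 1 ≤ x) (h2 : x ≤ y) (h3 : y ≤ z) (h4 : 2 * z ≤ a * x * y)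
    (h5 : x ^ 2 + y ^ 2 + z ^ 2 - a * x * y * z = b) : b = x ^ 2 ∨ 3 ≤ a * x := by
  by_cases h : 3 ≤ a * x
  · exact Or.inr h
  · left
    have k1 : a * x ≤ 2 := by omega
    have k2 : a * x * y ≤ 2 * y := mul_le_mul_of_nonneg_right k1 (by linarith)
    have k3 : z = y := by linarith
    subst k3
    have k4 : a * x * z = 2 * z := by linarith
    rw [k4] at h5
    linarith

/-- **Criterion.**  Let `a, b` be integers.  If `b ≥ 0`, then `x² + y² + z² - a x y z = b` is solvable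
in integers if and only if `b = x² + y² + z² + |a| x y z` for some integers `x, y, z ≥ 0`.  If
`b < 0`, it is solvable if and only if `x² + y² + z² - |a| x y z = b` for some integers
`1 ≤ x ≤ y ≤ z ≤ |a| x y / 2` with `y² ≤ 9 - b`. -/
theorem result (a b : ℤ) :
    (0 ≤ b → ((∃ x y z : ℤ, x ^ 2 + y ^ 2 + z ^ 2 - a * x * y * z = b) ↔
      ∃ x y z : ℤ, 0 ≤ x ∧ 0 ≤ y ∧ 0 ≤ z ∧ x ^ 2 + y ^ 2 + z ^ 2 + |a| * x * y * z = b)) ∧
    (b < 0 → ((∃ x y z : ℤ, x ^ 2 + y ^ 2 + z ^ 2 - a * x * y * z = b) ↔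
      ∃ x y z : ℤ, 1 ≤ x ∧ x ≤ y ∧ y ≤ z ∧ 2 * z ≤ |a| * x * y ∧ y ^ 2 ≤ 9 - b ∧
        x ^ 2 + y ^ 2 + z ^ 2 - |a| * x * y * z = b)) := by
  constructor
  · intro hb
    constructor
    · rintro ⟨x, y, z, h⟩
      rcases either h with ⟨x', y', z', h1, h2, h3, h4⟩ | ⟨x', y', z', h1, h2, h3, h4, h5⟩
      · exact ⟨x', y', z', h1, h2, h3, h4⟩
      · rcases red_two h1 h2 h3 h4 h5 with k0 | k0
        · exact ⟨x', 0, 0, by linarith, le_rfl, le_rfl, by rw [k0]; ring⟩
        · have k := step_aux h3 h4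
          rw [h5] at k
          have k1 : 1 ≤ |a| * x' - 2 := by linarith
          have k2 : x' ^ 2 ≤ y' ^ 2 := by nlinarith
          have k3 : y' ^ 2 * 1 ≤ y' ^ 2 * (|a| * x' - 2) :=
            mul_le_mul_of_nonneg_left k1 (sq_nonneg _)
          have hb0 : b = 0 := by linarith
          exact ⟨0, 0, 0, le_rfl, le_rfl, le_rfl, by rw [hb0]; ring⟩
    · rintro ⟨x, y, z, -, -, -, h⟩
      exact sol_abs_plus h
  · intro hb
    constructor
    · rintro ⟨x, y, z, h⟩
      rcases either h with ⟨x', y', z', h1, h2, h3, h4⟩ | ⟨x', y', z', h1, h2, h3, h4, h5⟩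
      · exfalso
        have h6 : 0 ≤ |a| * x' * y' * z' := by positivity
        nlinarith [sq_nonneg x', sq_nonneg y', sq_nonneg z']
      · rcases red_two h1 h2 h3 h4 h5 with k0 | k0
        · exfalso
          nlinarith [sq_nonneg x']
        · have k := step_aux h3 h4
          rw [h5] at k
          refine ⟨x', y', z', h1, h2, h3, h4, ?_, h5⟩
          have k2 : x' ^ 2 ≤ y' ^ 2 := by nlinarith
          by_cases k4 : 4 ≤ |a| * x'
          · have k5 : y' ^ 2 * 2 ≤ y' ^ 2 * (|a| * x' - 2) :=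
              mul_le_mul_of_nonneg_left (by linarith) (sq_nonneg _)
            linarith
          · have k5 : |a| * x' = 3 := by omega
            have ha1 : 1 ≤ |a| := by
              by_contra hc
              have h0 : |a| = 0 := le_antisymm (by omega) (abs_nonneg a)
              rw [h0] at k5
              simp at k5
            have k6 : x' ≤ 3 := by nlinarith
            have k7 : x' ^ 2 ≤ 9 := by nlinarith
            rw [k5] at k
            linarith
    · rintro ⟨x, y, z, -, -, -, -, -, h⟩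
      exact sol_abs h

end Pool.Agent.Results.MP_aff84d_nt.Criterion
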