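import Mathlib

set_option autoImplicit false

namespace Pool.Agent.Results.MP_aff84d_nt.NearZero

/-- the key estimate, ordered case -/
lemma step_aux {a X Y Z : ℤ} (ha : 3 ≤ a) (hX : 1 ≤ X) (hXY : X ≤ Y) (hYZ : Y ≤ Z)
    (h : 2 * Z ≤ a * X * Y) : X ^ 2 + Y ^ 2 + Z ^ 2 - a * X * Y * Z ≤ 3 - a := by
  have h1 : (Z - Y) * (Z + Y - a * X * Y) ≤ 0 :=
    mul_nonpos_of_nonneg_of_nonpos (by linarith) (by linarith)
  have h2 : 1 ≤ a * X - 2 := by nlinarith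
  have h3 : X ^ 2 ≤ Y ^ 2 := by nlinarith
  have h4 : X ^ 2 * (a * X - 2) ≤ Y ^ 2 * (a * X - 2) := mul_le_mul_of_nonneg_right h3 (by linarith)
  have h5 : a - 3 ≤ a * X - 3 := by nlinarith
  have h6 : a * X - 3 ≤ X ^ 2 * (a * X - 3) := by
    have h7 : 1 ≤ X ^ 2 := by nlinarith
    have h8 : 0 ≤ a * X - 3 := by linarith
    nlinarith
  nlinarith

lemma step {a X Y Z : ℤ} (ha : 3 ≤ a) (hX : 1 ≤ X) (hY : 1 ≤ Y) (hXZ : X ≤ Z) (hYZ : Y ≤ Z)
    (h : 2 * Z ≤ a * X * Y) : X ^ 2 + Y ^ 2 + Z ^ 2 - a * X * Y * Z ≤ 3 - a := by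
  rcases le_total X Y with hXY | hXY
  · exact step_aux ha hX hXY hYZ h
  · have h1 := step_aux ha hY hXY hXZ (by linarith [mul_comm (a * X) Y, mul_right_comm a X Y])
    have h2 : a * Y * X * Z = a * X * Y * Z := by ring
    linarith

/-- all entries positive and the product with the plus sign -/
lemma plus_ge {a X Y Z : ℤ} (ha : 3 ≤ a) (hX : 1 ≤ X) (hY : 1 ≤ Y) (hZ : 1 ≤ Z) :
    3 + a ≤ X ^ 2 + Y ^ 2 + Z ^ 2 + a * X * Y * Z := by
  have h1 : 1 ≤ X ^ 2 := by nlinarith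
  have h2 : 1 ≤ Y ^ 2 := by nlinarith
  have h3 : 1 ≤ Z ^ 2 := by nlinarith
  have h4 : 1 ≤ X * Y := by nlinarith
  have h5 : 1 ≤ X * Y * Z := by nlinarith
  have h6 : a ≤ a * (X * Y * Z) := by nlinarith
  have h7 : a * (X * Y * Z) = a * X * Y * Z := by ring
  linarith

/-- the descent when `Z` is the largest entry -/
lemma descend {a b X Y Z : ℤ} (ha : 3 ≤ a) (h1 : 3 - a < b) (h2 : b < 3 + a) (hX : 1 ≤ X)
    (hY : 1 ≤ Y) (hXZ : X ≤ Z) (hYZ : Y ≤ Z) (h : X ^ 2 + Y ^ 2 + Z ^ 2 - a * X * Y * Z = b) :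
    0 ≤ a * X * Y - Z ∧ a * X * Y - Z < Z ∧
      X ^ 2 + Y ^ 2 + (a * X * Y - Z) ^ 2 - a * X * Y * (a * X * Y - Z) = b := by
  have k3 : X ^ 2 + Y ^ 2 + (a * X * Y - Z) ^ 2 - a * X * Y * (a * X * Y - Z) = b := by
    rw [← h]
    ring
  refine ⟨?_, ?_, k3⟩
  · by_contra hcon
    push Not at hcon
    have h4 := plus_ge (Z := Z - a * X * Y) ha hX hY (by linarith)
    have h5 : X ^ 2 + Y ^ 2 + (Z - a * X * Y) ^ 2 + a * X * Y * (Z - a * X * Y) = b := by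
      rw [← h]
      ring
    linarith
  · by_contra hcon
    push Not at hcon
    have h4 := step ha hX hY hXZ hYZ (by linarith)
    linarith

lemma main_pos {a b : ℤ} (ha : 3 ≤ a) (h1 : 3 - a < b) (h2 : b < 3 + a) (N : ℕ) :
    ∀ X Y Z : ℤ, 0 ≤ X → 0 ≤ Y → 0 ≤ Z → (X + Y + Z).toNat ≤ N →
      X ^ 2 + Y ^ 2 + Z ^ 2 - a * X * Y * Z = b → ∃ u v : ℤ, b = u ^ 2 + v ^ 2 := by
  induction N with
  | zero =>
    intro X Y Z hX hY hZ hN h
    have e1 : X = 0 := by omega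
    subst e1
    exact ⟨Y, Z, by rw [← h]; ring⟩
  | succ N ih =>
    intro X Y Z hX hY hZ hN h
    rcases hX.eq_or_lt with e | hX1
    · subst e
      exact ⟨Y, Z, by rw [← h]; ring⟩
    rcases hY.eq_or_lt with e | hY1
    · subst e
      exact ⟨X, Z, by rw [← h]; ring⟩
    rcases hZ.eq_or_lt with e | hZ1
    · subst e
      exact ⟨X, Y, by rw [← h]; ring⟩
    by_cases c1 : X ≤ Z ∧ Y ≤ Z
    · obtain ⟨d1, d2, d3⟩ := descend ha h1 h2 hX1 hY1 c1.1 c1.2 h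
      exact ih X Y (a * X * Y - Z) hX hY d1 (by omega) d3
    by_cases c2 : X ≤ Y ∧ Z ≤ Y
    · have h' : X ^ 2 + Z ^ 2 + Y ^ 2 - a * X * Z * Y = b := by rw [← h]; ring
      obtain ⟨d1, d2, d3⟩ := descend ha h1 h2 hX1 hZ1 c2.1 c2.2 h'
      exact ih X Z (a * X * Z - Y) hX hZ d1 (by omega) d3
    · have h' : Y ^ 2 + Z ^ 2 + X ^ 2 - a * Y * Z * X = b := by rw [← h]; ring
      obtain ⟨d1, d2, d3⟩ := descend ha h1 h2 hY1 hZ1 (by omega) (by omega) h'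
      exact ih Y Z (a * Y * Z - X) hY hZ d1 (by omega) d3

/-- If `|a| ≥ 3` and `3 - |a| < b < 3 + |a|`, then `x² + y² + z² - a x y z = b` is solvable in
integers if and only if `b` is a sum of two squares. -/
theorem result (a b : ℤ) (ha : 3 ≤ |a|) (h1 : 3 - |a| < b) (h2 : b < 3 + |a|) :
    (∃ x y z : ℤ, x ^ 2 + y ^ 2 + z ^ 2 - a * x * y * z = b) ↔ ∃ u v : ℤ, b = u ^ 2 + v ^ 2 := by
  constructor
  · rintro ⟨x, y, z, h⟩
    have hprod : |a * x * y * z| = |a| * |x| * |y| * |z| := by rw [abs_mul, abs_mul, abs_mul]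
    rcases le_total 0 (a * x * y * z) with hs | hs
    · have h3 : |x| ^ 2 + |y| ^ 2 + |z| ^ 2 - |a| * |x| * |y| * |z| = b := by
        rw [← hprod, abs_of_nonneg hs, sq_abs, sq_abs, sq_abs]
        exact h
      exact main_pos ha h1 h2 _ |x| |y| |z| (abs_nonneg _) (abs_nonneg _) (abs_nonneg _) le_rfl h3
    · have h3 : |x| ^ 2 + |y| ^ 2 + |z| ^ 2 + |a| * |x| * |y| * |z| = b := by
        rw [← hprod, abs_of_nonpos hs, sq_abs, sq_abs, sq_abs]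
        linarith
      by_cases hx : x = 0
      · subst hx
        exact ⟨y, z, by rw [← h]; ring⟩
      by_cases hy : y = 0
      · subst hy
        exact ⟨x, z, by rw [← h]; ring⟩
      by_cases hz : z = 0
      · subst hz
        exact ⟨x, y, by rw [← h]; ring⟩
      have h4 := plus_ge ha (Int.one_le_abs hx) (Int.one_le_abs hy) (Int.one_le_abs hz)
      linarith
  · rintro ⟨u, v, h⟩
    exact ⟨0, u, v, by rw [h]; ring⟩

end Pool.Agent.Results.MP_aff84d_nt.NearZero
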